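import Mathlib
import Pool.Agent.Q127.DJ.Stm

set_option autoImplicit false

namespace Pool.Agent.Q44.DJ_CHA

open Pool.Agent.Q127.DJ MeasureTheory Filter Topology

/-- the elementary bound of `negMulLog` -/
theorem nml_bound (η : ℝ) (hη : 0 < η) : ∃ K : ℝ, 0 ≤ K ∧ ∀ p : ℝ, 0 ≤ p → p ≤ 1 →
    Real.negMulLog p ≤ η + K * (p * (1 - p)) := by
  have hc : Tendsto Real.negMulLog (𝓝 0) (𝓝 0) := by
    have := Real.continuous_negMulLog.tendsto 0
    simpa using this
  have he : ∀ᶠ p in 𝓝 (0:ℝ), Real.negMulLog p < η := hc.eventually (gt_mem_nhds hη)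
  obtain ⟨δ, hδ, hball⟩ := Metric.eventually_nhds_iff.1 he
  refine ⟨1 / δ, by positivity, ?_⟩
  intro p hp0 hp1
  have hpp : 0 ≤ p * (1 - p) := mul_nonneg hp0 (by linarith)
  by_cases h : p < δ
  · have h1 : Real.negMulLog p < η := hball (by rw [Real.dist_eq, sub_zero, abs_of_nonneg hp0]; exact h)
    have h2 : 0 ≤ 1 / δ * (p * (1 - p)) := by positivity
    linarith
  · push Not at h
    have h1 := Real.negMulLog_le_one_sub_self hp0
    have h2 : 1 ≤ 1 / δ * p := by
      rw [one_div, inv_mul_eq_div, le_div_iff₀ hδ]; linarith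
    have h3 : (1 - p) ≤ 1 / δ * (p * (1 - p)) := by
      have : 0 ≤ 1 - p := by linarith
      nlinarith
    linarith

variable {m : ℕ}

theorem nm_meas (f : ℕ → Fin m) (t : ℕ) : Measurable (nm f t) := by
  rw [measurable_pi_iff]
  intro i
  exact (measurable_from_nat (f := f)).comp (measurable_pi_apply _)

theorem cyl_meas (f : ℕ → Fin m) (t : ℕ) (w : Fin t → Fin m) : MeasurableSet (cyl f t w) :=
  nm_meas f t (measurableSet_singleton w)

theorem snoc_mem (f : ℕ → Fin m) (n : ℕ) (w : Fin n → Fin m) (a : Fin m) (x : ℕ → ℕ) :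
    x ∈ cyl f (n + 1) (Fin.snoc (α := fun _ => Fin m) w a) ↔ x ∈ cyl f n w ∧ f (x n) = a := by
  change nm f (n + 1) x = _ ↔ nm f n x = w ∧ _
  constructor
  · intro h
    refine ⟨?_, ?_⟩
    · funext i
      have := congrFun h (Fin.castSucc i)
      simpa [nm, Fin.snoc_castSucc] using this
    · have := congrFun h (Fin.last n)
      simpa [nm, Fin.snoc_last] using this
  · rintro ⟨h1, h2⟩
    funext i
    refine Fin.lastCases ?_ (fun j => ?_) i
    · simpa [nm, Fin.snoc_last] using h2
    · have := congrFun h1 j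
      simpa [nm, Fin.snoc_castSucc] using this

theorem I_meas (f : ℕ → Fin m) (a : Fin m) (s : ℕ) : Measurable (I f a s) := by
  unfold I
  refine Measurable.ite ?_ measurable_const measurable_const
  exact ((measurable_from_nat (f := f)).comp (measurable_pi_apply s)) (measurableSet_singleton a)

theorem int_I (μ : Measure (ℕ → ℕ)) [IsProbabilityMeasure μ] (f : ℕ → Fin m) (n : ℕ) (w : Fin n → Fin m)
    (a : Fin m) : ∫ x in cyl f n w, I f a n x ∂μ =
      μ.real (cyl f (n + 1) (Fin.snoc (α := fun _ => Fin m) w a)) := by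
  have hs : MeasurableSet {x : ℕ → ℕ | f (x n) = a} :=
    ((measurable_from_nat (f := f)).comp (measurable_pi_apply n)) (measurableSet_singleton a)
  have h1 : I f a n = Set.indicator {x : ℕ → ℕ | f (x n) = a} (fun _ => (1:ℝ)) := by
    funext x
    simp [I, Set.indicator]
  rw [h1, integral_indicator hs, Measure.restrict_restrict hs, integral_const, smul_eq_mul, mul_one]
  simp only [measureReal_restrict_apply_univ]
  congr 1
  ext x
  rw [snoc_mem]
  simp [and_comm]

theorem split (μ : Measure (ℕ → ℕ)) [IsProbabilityMeasure μ] (f : ℕ → Fin m) (n : ℕ) (F : (ℕ → ℕ) → ℝ)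
    (hF : Integrable F μ) : ∫ x, F x ∂μ = ∑ w : Fin n → Fin m, ∫ x in cyl f n w, F x ∂μ := by
  have hU : (⋃ w : Fin n → Fin m, cyl f n w) = Set.univ := by
    ext x; simp [cyl]
  rw [← integral_iUnion_fintype (fun w => cyl_meas f n w) ?_ (fun w => hF.integrableOn), hU,
    Measure.restrict_univ]
  intro w w' hne
  rw [Function.onFun, Set.disjoint_left]
  intro x hx hx'
  exact hne (hx.symm.trans hx')

theorem real_cyl_sum (μ : Measure (ℕ → ℕ)) [IsProbabilityMeasure μ] (f : ℕ → Fin m) (n : ℕ) :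
    ∑ w : Fin n → Fin m, μ.real (cyl f n w) = 1 := by
  have := split μ f n (fun _ => (1:ℝ)) (integrable_const _)
  simpa [eq_comm] using this

theorem real_snoc_sum (μ : Measure (ℕ → ℕ)) [IsProbabilityMeasure μ] (f : ℕ → Fin m) (n : ℕ)
    (w : Fin n → Fin m) :
    ∑ a : Fin m, μ.real (cyl f (n + 1) (Fin.snoc (α := fun _ => Fin m) w a)) = μ.real (cyl f n w) := by
  have h1 : ∀ a : Fin m, Integrable (I f a n) (μ.restrict (cyl f n w)) := by
    intro a
    refine Integrable.of_bound (I_meas f a n).aestronglyMeasurable 1 (ae_of_all _ fun x => ?_)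
    simp only [I]; split_ifs <;> simp
  have h2 : ∑ a : Fin m, ∫ x in cyl f n w, I f a n x ∂μ = ∫ x in cyl f n w, (1:ℝ) ∂μ := by
    rw [← integral_finsetSum _ (fun a _ => h1 a)]
    congr 1
    funext x
    simp [I]
  simp only [int_I] at h2
  rw [h2]
  simp

theorem energy (h2 : S_inn) (μ : Measure (ℕ → ℕ)) [IsProbabilityMeasure μ] (f : ℕ → Fin m) (a : Fin m) (n : ℕ) :
    ∫ x, (g μ f a n x) ^ 2 ∂μ = ∑ w : Fin n → Fin m,
      (1 - μ.real (cyl f (n + 1) (Fin.snoc (α := fun _ => Fin m) w a)) / μ.real (cyl f n w)) *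
        μ.real (cyl f (n + 1) (Fin.snoc (α := fun _ => Fin m) w a)) := by
  obtain ⟨_, hBM, _, h4⟩ := h2 μ m f a n
  rw [← h4, split μ f n (fun x => g μ f a n x * I f a n x)]
  · refine Finset.sum_congr rfl fun w _ => ?_
    rw [← int_I μ f n w a, ← integral_const_mul]
    refine setIntegral_congr_fun (cyl_meas f n w) fun x hx => ?_
    have hx' : nm f n x = w := hx
    have hE : E μ f n (I f a n) x = (∫ y in cyl f n w, I f a n y ∂μ) / μ.real (cyl f n w) := by
      simp only [E, hx']
    simp only [g, hE]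
    by_cases hI : f (x n) = a
    · simp [I, hI]
    · simp [I, hI]
  · refine Integrable.of_bound (hBM.1.mul (I_meas f a n)).aestronglyMeasurable 1 (ae_of_all _ fun x => ?_)
    rw [Real.norm_eq_abs, abs_mul]
    have h5 := hBM.2 x
    have h6 : |I f a n x| ≤ 1 := by simp only [I]; split_ifs <;> simp
    calc |g μ f a n x| * |I f a n x| ≤ 1 * 1 := mul_le_mul h5 h6 (abs_nonneg _) zero_le_one
      _ = 1 := by norm_num

theorem cha' (h3 : S_inn) : S_cha := by
  intro η hη
  obtain ⟨K, hK, hb⟩ := nml_bound η hη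
  refine ⟨K, hK, ?_⟩
  intro μ hμ m f n
  set P : (Fin n → Fin m) → ℝ := fun w => μ.real (cyl f n w) with hP
  set R : (Fin n → Fin m) → Fin m → ℝ := fun w a =>
    μ.real (cyl f (n + 1) (Fin.snoc (α := fun _ => Fin m) w a)) with hR
  have hL : ∑ w : Fin (n + 1) → Fin m, Real.negMulLog (μ.real (cyl f (n + 1) w)) =
      ∑ w : Fin n → Fin m, ∑ a : Fin m, Real.negMulLog (R w a) := by
    rw [← (Fin.snocEquiv (fun _ : Fin (n + 1) => Fin m)).sum_comp
      (fun w => Real.negMulLog (μ.real (cyl f (n + 1) w))), Fintype.sum_prod_type, Finset.sum_comm]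
    rfl
  have hP0 : ∀ w, 0 ≤ P w := fun w => measureReal_nonneg
  have hR0 : ∀ w a, 0 ≤ R w a := fun w a => measureReal_nonneg
  have hRs : ∀ w, ∑ a, R w a = P w := fun w => real_snoc_sum μ f n w
  have hRle : ∀ w a, R w a ≤ P w := fun w a => by
    rw [← hRs w]; exact Finset.single_le_sum (fun b _ => hR0 w b) (Finset.mem_univ a)
  have hPs : ∑ w, P w = 1 := real_cyl_sum μ f n
  have hE : ∑ a : Fin m, ∫ x, (g μ f a n x) ^ 2 ∂μ = ∑ w, ∑ a, (1 - R w a / P w) * R w a := by
    rw [Finset.sum_comm]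
    refine Finset.sum_congr rfl fun a _ => ?_
    exact energy h3 μ f a n
  rw [hL, hE]
  have key : ∀ w, ∑ a : Fin m, Real.negMulLog (R w a) ≤ Real.negMulLog (P w) + P w * (m * η) +
      K * ∑ a, (1 - R w a / P w) * R w a := by
    intro w
    by_cases hw : P w = 0
    · have hz : ∀ a, R w a = 0 := fun a => le_antisymm (hw ▸ hRle w a) (hR0 w a)
      simp [hz, hw]
    · have hpos : 0 < P w := lt_of_le_of_ne (hP0 w) (Ne.symm hw)
      have h1 : ∀ a, Real.negMulLog (R w a) ≤ (R w a / P w) * Real.negMulLog (P w) + P w * η +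
          K * ((1 - R w a / P w) * R w a) := by
        intro a
        have h2 : R w a = P w * (R w a / P w) := by field_simp
        have h3 : Real.negMulLog (R w a) = (R w a / P w) * Real.negMulLog (P w) +
            P w * Real.negMulLog (R w a / P w) := by
          conv_lhs => rw [h2]
          rw [Real.negMulLog_mul]
        have h4 := hb (R w a / P w) (div_nonneg (hR0 w a) hpos.le) (by
          rw [div_le_one hpos]; exact hRle w a)
        have h5 := mul_le_mul_of_nonneg_left h4 hpos.le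
        have h6 : P w * (η + K * (R w a / P w * (1 - R w a / P w))) = P w * η +
            K * ((1 - R w a / P w) * R w a) := by
          field_simp
        rw [h3]
        linarith
      calc ∑ a : Fin m, Real.negMulLog (R w a) ≤ ∑ a : Fin m, ((R w a / P w) * Real.negMulLog (P w) + P w * η +
          K * ((1 - R w a / P w) * R w a)) := Finset.sum_le_sum fun a _ => h1 a
        _ = Real.negMulLog (P w) + P w * (m * η) + K * ∑ a, (1 - R w a / P w) * R w a := by
          rw [Finset.sum_add_distrib, Finset.sum_add_distrib, ← Finset.sum_mul, ← Finset.sum_div, hRs w,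
            div_self hw, Finset.mul_sum]
          simp
          ring
  calc ∑ w, ∑ a : Fin m, Real.negMulLog (R w a) ≤ ∑ w, (Real.negMulLog (P w) + P w * (m * η) +
      K * ∑ a, (1 - R w a / P w) * R w a) := Finset.sum_le_sum fun w _ => key w
    _ = _ := by
      rw [Finset.sum_add_distrib, Finset.sum_add_distrib, ← Finset.sum_mul, hPs, ← Finset.mul_sum]
      ring

theorem cha (_h1 : S_ce1) (_h2 : S_ce2) (h3 : S_inn) : S_cha := cha' h3

end Pool.Agent.Q44.DJ_CHA
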